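import Pool.Agent.H295R3.W.StmtsB

set_option autoImplicit false

open Finset ArithmeticFunction Filter Topology Complex

namespace Pool.Agent.H559R3.W

open Pool.Agent.H295R3.W

theorem tele (a A : ℕ → ℂ) (z : ℂ) (h0 : A 0 = a 0) (hA : ∀ e, A (e + 1) = A e + a (e + 1))
    (hs : Summable fun e => A e * z ^ e) :
    HasSum (fun e => a e * z ^ e) ((1 - z) * ∑' e, A e * z ^ e) := by
  have h1 : HasSum (fun e => A (e + 1) * z ^ (e + 1)) ((∑' e, A e * z ^ e) - A 0) := by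
    have := (hasSum_nat_add_iff' (f := fun e => A e * z ^ e) 1).2 hs.hasSum
    simpa using this
  have h2 : HasSum (fun e => z * (A e * z ^ e)) (z * ∑' e, A e * z ^ e) := hs.hasSum.mul_left z
  have h3 := h1.sub h2
  have h4 : (fun e => A (e + 1) * z ^ (e + 1) - z * (A e * z ^ e)) =
      fun e => a (e + 1) * z ^ (e + 1) := by
    funext e
    rw [hA e]
    ring
  rw [h4] at h3
  have h5 := (hasSum_nat_add_iff' (f := fun e => a e * z ^ e)
    (g := (1 - z) * ∑' e, A e * z ^ e) 1).1 (by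
      have : ((1 - z) * ∑' e, A e * z ^ e) - ∑ i ∈ range 1, a i * z ^ i =
          (∑' e, A e * z ^ e) - A 0 - z * ∑' e, A e * z ^ e := by
        simp [h0]
        ring
      rw [this]
      exact h3)
  exact h5

theorem fo_apply (n : ℕ) : fo n = if n % 2 = 1 then f n else 0 := rfl

theorem fo_mult : fo.IsMultiplicative := by
  constructor
  · simp [fo_apply, f]
  · intro m n hmn
    rw [fo_apply, fo_apply, fo_apply]
    by_cases hm : m % 2 = 1
    · by_cases hn : n % 2 = 1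
      · have h : (m * n) % 2 = 1 := by rw [Nat.mul_mod, hm, hn]
        rw [if_pos hm, if_pos hn, if_pos h]
        unfold f
        rw [cardFactors_mul (by rintro rfl; simp at hm) (by rintro rfl; simp at hn), pow_add]
      · have h : ¬ (m * n) % 2 = 1 := by
          intro h
          rw [Nat.mul_mod, hm] at h
          have : n % 2 = 0 := by omega
          rw [this] at h
          simp at h
        rw [if_neg hn, if_neg h, mul_zero]
    · have h : ¬ (m * n) % 2 = 1 := by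
        intro h
        rw [Nat.mul_mod] at h
        have : m % 2 = 0 := by omega
        rw [this] at h
        simp at h
      rw [if_neg hm, if_neg h, zero_mul]

theorem g_mult : g.IsMultiplicative := by
  unfold g
  exact (isMultiplicative_zeta.natCast.mul isMultiplicative_zeta.natCast).mul fo_mult

/-- the intermediate function `1 * fo` -/
noncomputable def h : ArithmeticFunction ℝ :=
  ((zeta : ArithmeticFunction ℕ) : ArithmeticFunction ℝ) * fo

theorem g_eq : g = ((zeta : ArithmeticFunction ℕ) : ArithmeticFunction ℝ) * h := by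
  unfold g h
  rw [mul_assoc]

theorem zeta_mul_pow (a : ArithmeticFunction ℝ) {p : ℕ} (hp : p.Prime) (e : ℕ) :
    (((zeta : ArithmeticFunction ℕ) : ArithmeticFunction ℝ) * a) (p ^ e) =
      ∑ i ∈ range (e + 1), a (p ^ i) := by
  rw [coe_zeta_mul_apply, Nat.sum_divisors_prime_pow hp]

theorem zeta_mul_zero (a : ArithmeticFunction ℝ) {p : ℕ} (hp : p.Prime) :
    (((zeta : ArithmeticFunction ℕ) : ArithmeticFunction ℝ) * a) (p ^ 0) = a (p ^ 0) := by
  rw [zeta_mul_pow a hp]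
  simp

theorem zeta_mul_succ (a : ArithmeticFunction ℝ) {p : ℕ} (hp : p.Prime) (e : ℕ) :
    (((zeta : ArithmeticFunction ℕ) : ArithmeticFunction ℝ) * a) (p ^ (e + 1)) =
      (((zeta : ArithmeticFunction ℕ) : ArithmeticFunction ℝ) * a) (p ^ e) + a (p ^ (e + 1)) := by
  rw [zeta_mul_pow a hp, zeta_mul_pow a hp, Finset.sum_range_succ]

/-- the summand -/
noncomputable def F (s : ℂ) (n : ℕ) : ℂ := (g n : ℂ) * ((n : ℂ) ^ (-s))

theorem pow_cpow (p e : ℕ) (s : ℂ) : ((p ^ e : ℕ) : ℂ) ^ (-s) = ((p : ℂ) ^ (-s)) ^ e := by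
  induction e with
  | zero => simp
  | succ e ih =>
    rw [pow_succ, Nat.cast_mul, natCast_mul_natCast_cpow, ih, pow_succ]

theorem F_pow (s : ℂ) (p e : ℕ) : F s (p ^ e) = (g (p ^ e) : ℂ) * ((p : ℂ) ^ (-s)) ^ e := by
  unfold F
  rw [pow_cpow]

theorem norm_z {p : ℕ} (hp : p ≠ 0) {s : ℂ} (hs : s.re = 1) : ‖(p : ℂ) ^ (-s)‖ = 1 / p := by
  rw [Complex.norm_natCast_cpow_of_pos (Nat.pos_of_ne_zero hp)]
  simp [hs, Real.rpow_neg_one]

theorem F_summable (hG : TaskG) {s : ℂ} (hs : s.re = 1) : Summable (‖F s ·‖) := by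
  refine Summable.of_nonneg_of_le (fun _ => norm_nonneg _) ?_ hG
  intro n
  rcases Nat.eq_zero_or_pos n with rfl | hn
  · simp [F]
  · unfold F
    rw [norm_mul, norm_z hn.ne' hs, Complex.norm_real, Real.norm_eq_abs, mul_one_div]
    have hn1 : (1 : ℝ) ≤ n := by exact_mod_cast hn
    have h1 : (n : ℝ) ^ (3 / 4 : ℝ) ≤ n := by
      calc (n : ℝ) ^ (3 / 4 : ℝ) ≤ (n : ℝ) ^ (1 : ℝ) :=
            Real.rpow_le_rpow_of_exponent_le hn1 (by norm_num)
        _ = n := Real.rpow_one _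
    have h2 : 0 < (n : ℝ) ^ (3 / 4 : ℝ) := Real.rpow_pos_of_pos (by linarith) _
    exact div_le_div_of_nonneg_left (abs_nonneg _) h2 h1

theorem F_one (s : ℂ) : F s 1 = 1 := by
  unfold F
  rw [g_mult.1]
  simp

theorem F_zero (s : ℂ) : F s 0 = 0 := by
  simp [F]

theorem F_mul (s : ℂ) {m n : ℕ} (hmn : Nat.Coprime m n) : F s (m * n) = F s m * F s n := by
  unfold F
  rw [g_mult.2 hmn, Nat.cast_mul, natCast_mul_natCast_cpow]
  push_cast
  ring

theorem local_sum (hG : TaskG) {s : ℂ} (hs : s.re = 1) {p : ℕ} (hp : p.Prime) :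
    HasSum (fun e => (fo (p ^ e) : ℂ) * ((p : ℂ) ^ (-s)) ^ e)
      ((1 - (p : ℂ) ^ (-s)) * ((1 - (p : ℂ) ^ (-s)) * ∑' e, F s (p ^ e))) := by
  set z := (p : ℂ) ^ (-s) with hz
  have hsum : Summable fun e => (g (p ^ e) : ℂ) * z ^ e := by
    have h1 : Summable (F s) := (F_summable hG hs).of_norm
    have h2 := h1.comp_injective (Nat.pow_right_injective hp.two_le)
    refine h2.congr ?_
    intro e
    exact F_pow s p e
  have hF : ∑' e, F s (p ^ e) = ∑' e, (g (p ^ e) : ℂ) * z ^ e := by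
    refine tsum_congr ?_
    intro e
    exact F_pow s p e
  rw [hF]
  have e1 := tele (fun e => (h (p ^ e) : ℂ)) (fun e => (g (p ^ e) : ℂ)) z (by
      simp only [g_eq, zeta_mul_zero h hp]) (by
      intro e
      simp only [g_eq, zeta_mul_succ h hp]
      push_cast
      ring) hsum
  have e2 := tele (fun e => (fo (p ^ e) : ℂ)) (fun e => (h (p ^ e) : ℂ)) z (by
      have := zeta_mul_zero fo hp
      simp only [h]
      rw [this]) (by
      intro e
      have := zeta_mul_succ fo hp e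
      simp only [h]
      rw [this]
      push_cast
      ring) e1.summable
  rw [e1.tsum_eq] at e2
  exact e2

theorem one_sub_ne {z : ℂ} (hz : ‖z‖ < 1) : 1 - z ≠ 0 := by
  intro h
  have : z = 1 := (sub_eq_zero.1 h).symm
  rw [this] at hz
  simp at hz

theorem local_two (hG : TaskG) {s : ℂ} (hs : s.re = 1) :
    ∑' e, F s (2 ^ e) = (1 - (2 : ℂ) ^ (-s))⁻¹ ^ 2 := by
  have h1 := local_sum hG hs Nat.prime_two
  have h2 : HasSum (fun e => (fo (2 ^ e) : ℂ) * (((2 : ℕ) : ℂ) ^ (-s)) ^ e) 1 := by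
    have : (1 : ℂ) = (fo (2 ^ 0) : ℂ) * (((2 : ℕ) : ℂ) ^ (-s)) ^ 0 := by
      simp [fo_apply, f]
    rw [this]
    refine hasSum_single 0 ?_
    intro e he
    have : fo (2 ^ e) = 0 := by
      rw [fo_apply, if_neg]
      obtain ⟨k, rfl⟩ := Nat.exists_eq_succ_of_ne_zero he
      rw [Nat.succ_eq_add_one, pow_succ]
      omega
    rw [this]
    simp
  have h3 := h1.unique h2
  have hz : ‖((2 : ℕ) : ℂ) ^ (-s)‖ < 1 := by
    rw [norm_z (by norm_num) hs]
    norm_num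
  have h4 := one_sub_ne hz
  push_cast at h3 h4
  field_simp
  linear_combination h3

theorem local_odd (hG : TaskG) {s : ℂ} (hs : s.re = 1) {p : ℕ} (hp : p.Prime) (hp2 : p ≠ 2) :
    ∑' e, F s (p ^ e) = (1 - 3 * ((p : ℂ) ^ (-s)) ^ 2 + 2 * ((p : ℂ) ^ (-s)) ^ 3)⁻¹ := by
  have h1 := local_sum hG hs hp
  have hp3 : 3 ≤ p := by
    have := hp.two_le
    omega
  have hz : ‖(p : ℂ) ^ (-s)‖ ≤ 1 / 3 := by
    rw [norm_z hp.ne_zero hs]
    have : (3 : ℝ) ≤ p := by exact_mod_cast hp3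
    exact one_div_le_one_div_of_le (by norm_num) this
  set z := (p : ℂ) ^ (-s) with hzz
  have hm : ‖-2 * z‖ < 1 := by
    rw [norm_mul]
    simp
    linarith
  have h2 : HasSum (fun e => (fo (p ^ e) : ℂ) * z ^ e) (1 - -2 * z)⁻¹ := by
    have h3 := hasSum_geometric_of_norm_lt_one hm
    have h4 : (fun e => (fo (p ^ e) : ℂ) * z ^ e) = fun e => (-2 * z) ^ e := by
      funext e
      have hodd : p ^ e % 2 = 1 := Nat.odd_iff.1 ((hp.odd_of_ne_two hp2).pow)
      rw [fo_apply, if_pos hodd, f, cardFactors_apply_prime_pow hp, mul_pow]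
      push_cast
      ring
    rw [h4]
    exact h3
  have h3 := h1.unique h2
  have h4 : 1 - z ≠ 0 := one_sub_ne (by linarith)
  have h5 : 1 - -2 * z ≠ 0 := one_sub_ne hm
  have h6 : 1 - 3 * z ^ 2 + 2 * z ^ 3 = (1 - -2 * z) * (1 - z) ^ 2 := by ring
  rw [h6]
  field_simp
  field_simp at h3
  linear_combination h3


/-- the local factor minus one -/
noncomputable def b (s : ℂ) (p : ℕ) : ℂ :=
  (1 - 3 * ((p : ℂ) ^ (-s)) ^ 2 + 2 * ((p : ℂ) ^ (-s)) ^ 3)⁻¹ - 1

theorem norm_w {z : ℂ} {p : ℕ} (hz : ‖z‖ = 1 / p) :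
    ‖3 * z ^ 2 - 2 * z ^ 3‖ ≤ 3 / (p : ℝ) ^ 2 + 2 / (p : ℝ) ^ 3 := by
  refine (norm_sub_le _ _).trans ?_
  rw [norm_mul, norm_mul, norm_pow, norm_pow, hz]
  simp only [Complex.norm_ofNat]
  rw [div_pow, div_pow]
  apply le_of_eq
  ring

theorem den_ne {s : ℂ} (hs : s.re = 1) {p : ℕ} (hp : 3 ≤ p) :
    1 - 3 * ((p : ℂ) ^ (-s)) ^ 2 + 2 * ((p : ℂ) ^ (-s)) ^ 3 ≠ 0 := by
  have hz := norm_z (p := p) (by omega) hs
  have h1 := norm_w hz
  have hp3 : (3 : ℝ) ≤ p := by exact_mod_cast hp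
  have h2 : 3 / (p : ℝ) ^ 2 ≤ 3 / 3 ^ 2 := by gcongr
  have h3 : 2 / (p : ℝ) ^ 3 ≤ 2 / 3 ^ 3 := by gcongr
  have h4 : ‖3 * ((p : ℂ) ^ (-s)) ^ 2 - 2 * ((p : ℂ) ^ (-s)) ^ 3‖ < 1 := by
    norm_num at h2 h3
    linarith
  have h5 := one_sub_ne h4
  intro h6
  apply h5
  rw [← h6]
  ring

theorem b_bound {s : ℂ} (hs : s.re = 1) {p : ℕ} (hp : 101 ≤ p) :
    ‖b s p‖ ≤ 61 / 20 / (p : ℝ) ^ 2 := by
  have hz := norm_z (p := p) (by omega) hs
  have h1 := norm_w hz
  have hd := den_ne hs (show 3 ≤ p by omega)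
  set z := (p : ℂ) ^ (-s) with hzz
  have hp3 : (101 : ℝ) ≤ p := by exact_mod_cast hp
  have hp0 : (0 : ℝ) < p := by linarith
  set x : ℝ := 1 / (p : ℝ) ^ 2 with hx
  have hx0 : 0 < x := by positivity
  have hx1 : x ≤ 1 / 10201 := by
    rw [hx]
    have : (10201 : ℝ) ≤ (p : ℝ) ^ 2 := by nlinarith
    exact one_div_le_one_div_of_le (by norm_num) this
  have h2 : 3 / (p : ℝ) ^ 2 + 2 / (p : ℝ) ^ 3 ≤ (305 / 101) * x := by
    have e1 : 3 / (p : ℝ) ^ 2 = 3 * x := by rw [hx]; ring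
    have e2 : 2 / (p : ℝ) ^ 3 = 2 * x * (1 / p) := by
      rw [hx]
      field_simp
    have e3 : 1 / (p : ℝ) ≤ 1 / 101 := one_div_le_one_div_of_le (by norm_num) hp3
    rw [e1, e2]
    nlinarith
  have h3 : ‖3 * z ^ 2 - 2 * z ^ 3‖ ≤ (305 / 101) * x := h1.trans h2
  have h4 : ‖(1 : ℂ)‖ - ‖3 * z ^ 2 - 2 * z ^ 3‖ ≤ ‖1 - (3 * z ^ 2 - 2 * z ^ 3)‖ :=
    norm_sub_norm_le _ _
  rw [norm_one] at h4
  have h5 : 1 - (3 * z ^ 2 - 2 * z ^ 3) = 1 - 3 * z ^ 2 + 2 * z ^ 3 := by ring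
  rw [h5] at h4
  have h6 : b s p = (3 * z ^ 2 - 2 * z ^ 3) / (1 - 3 * z ^ 2 + 2 * z ^ 3) := by
    unfold b
    rw [← hzz, eq_div_iff hd, sub_mul, inv_mul_cancel₀ hd]
    ring
  rw [h6, norm_div]
  have h7 : 1 - (305 / 101) * x ≤ ‖1 - 3 * z ^ 2 + 2 * z ^ 3‖ := by linarith
  have h8 : 0 < 1 - (305 / 101) * x := by linarith
  have h9 : 61 / 20 / (p : ℝ) ^ 2 = 61 / 20 * x := by rw [hx]; ring
  rw [h9, div_le_iff₀ (by linarith)]
  calc ‖3 * z ^ 2 - 2 * z ^ 3‖ ≤ (305 / 101) * x := h3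
    _ ≤ 61 / 20 * x * (1 - (305 / 101) * x) := by nlinarith
    _ ≤ _ := by gcongr

theorem tele_step {x : ℝ} (hx : 0 < x) :
    1 / (2 * x + 1) ^ 2 ≤ 1 / (4 * x) - 1 / (4 * (x + 1)) := by
  have h1 : 1 / (4 * x) - 1 / (4 * (x + 1)) = 1 / (4 * x * (x + 1)) := by
    field_simp
    ring
  rw [h1]
  apply one_div_le_one_div_of_le (by positivity)
  nlinarith

theorem odd_tail (N n : ℕ) (hN : 1 ≤ N) :
    ∑ m ∈ range n, 1 / (2 * ((N : ℝ) + m) + 1) ^ 2 ≤ 1 / (4 * (N : ℝ)) - 1 / (4 * ((N : ℝ) + n)) := by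
  have hN1 : (1 : ℝ) ≤ N := by exact_mod_cast hN
  induction n with
  | zero => simp
  | succ n ih =>
    rw [Finset.sum_range_succ]
    have hn : (0 : ℝ) ≤ n := Nat.cast_nonneg n
    have h1 := tele_step (x := (N : ℝ) + n) (by linarith)
    push_cast
    rw [← add_assoc]
    linarith

theorem prime_tail (n : ℕ) :
    ∑ p ∈ (Ico 300 n).filter Nat.Prime, 1 / (p : ℝ) ^ 2 ≤ 1 / 600 := by
  have h1 : ∑ p ∈ (Ico 300 n).filter Nat.Prime, 1 / (p : ℝ) ^ 2 ≤
      ∑ p ∈ (range n).image (fun m : ℕ => (2 * (150 + m) + 1 : ℕ)), 1 / ((p : ℕ) : ℝ) ^ 2 := by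
    refine Finset.sum_le_sum_of_subset_of_nonneg ?_ (fun _ _ _ => by positivity)
    intro p hp
    rw [Finset.mem_filter, Finset.mem_Ico] at hp
    rw [Finset.mem_image]
    have h2 : p % 2 = 1 := Nat.odd_iff.1 (hp.2.odd_of_ne_two (by omega))
    exact ⟨p / 2 - 150, by rw [Finset.mem_range]; omega, by omega⟩
  rw [Finset.sum_image (by intro a _ b _ hab; simpa using hab)] at h1
  have h2 := odd_tail 150 n (by norm_num)
  have h3 : 0 ≤ 1 / (4 * (((150 : ℕ) : ℝ) + n)) := by positivity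
  push_cast at h1 h2 h3
  norm_num at h1 h2 ⊢
  have h4 : 0 ≤ (150 + (n : ℝ))⁻¹ * (1 / 4) := by positivity
  linarith

theorem primes_mid : (Ico 100 300).filter Nat.Prime ⊆
    {101, 103, 107, 109, 113, 127, 131, 137, 139, 149, 151, 157, 163, 167, 173, 179, 181, 191, 193,
      197, 199, 211, 223, 227, 229, 233, 239, 241, 251, 257, 263, 269, 271, 277, 281, 283, 293} := by
  intro p hp
  rw [Finset.mem_filter, Finset.mem_Ico] at hp
  obtain ⟨⟨h1, h2⟩, h3⟩ := hp
  interval_cases p <;> first | decide | (exfalso; revert h3; norm_num)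

theorem prime_mid_sum :
    ∑ p ∈ (Ico 100 300).filter Nat.Prime, 1 / (p : ℝ) ^ 2 ≤ 1579 / 1000000 := by
  refine (Finset.sum_le_sum_of_subset_of_nonneg primes_mid (fun _ _ _ => by positivity)).trans ?_
  norm_num [Finset.sum_insert]

theorem prime_sum (n : ℕ) :
    ∑ p ∈ (Ico 100 n).filter Nat.Prime, 61 / 20 / (p : ℝ) ^ 2 ≤ 99 / 10000 := by
  have h1 : ∑ p ∈ (Ico 100 n).filter Nat.Prime, 1 / (p : ℝ) ^ 2 ≤
      ∑ p ∈ (Ico 100 300).filter Nat.Prime, 1 / (p : ℝ) ^ 2 +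
        ∑ p ∈ (Ico 300 n).filter Nat.Prime, 1 / (p : ℝ) ^ 2 := by
    rw [← Finset.sum_union]
    · refine Finset.sum_le_sum_of_subset_of_nonneg ?_ (fun _ _ _ => by positivity)
      intro p hp
      simp only [Finset.mem_union, Finset.mem_filter, Finset.mem_Ico] at hp ⊢
      have := hp.2
      by_cases h : p < 300
      · exact Or.inl ⟨⟨hp.1.1, h⟩, this⟩
      · exact Or.inr ⟨⟨by omega, hp.1.2⟩, this⟩
    · rw [Finset.disjoint_left]
      intro p hp hq
      simp only [Finset.mem_filter, Finset.mem_Ico] at hp hq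
      omega
  have h2 := prime_mid_sum
  have h3 := prime_tail n
  have h4 : ∑ p ∈ (Ico 100 n).filter Nat.Prime, 61 / 20 / (p : ℝ) ^ 2 =
      61 / 20 * ∑ p ∈ (Ico 100 n).filter Nat.Prime, 1 / (p : ℝ) ^ 2 := by
    rw [Finset.mul_sum]
    refine Finset.sum_congr rfl ?_
    intro p _
    ring
  rw [h4]
  linarith

theorem prod_bound {s : ℂ} (hs : s.re = 1) (n : ℕ) :
    ‖∏ p ∈ (Ico 100 n).filter Nat.Prime,
      (1 - 3 * ((p : ℂ) ^ (-s)) ^ 2 + 2 * ((p : ℂ) ^ (-s)) ^ 3)⁻¹ - 1‖ ≤ 1 / 100 := by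
  have h1 : ∏ p ∈ (Ico 100 n).filter Nat.Prime,
      (1 - 3 * ((p : ℂ) ^ (-s)) ^ 2 + 2 * ((p : ℂ) ^ (-s)) ^ 3)⁻¹ =
      ∏ p ∈ (Ico 100 n).filter Nat.Prime, (1 + b s p) := by
    refine Finset.prod_congr rfl ?_
    intro p _
    unfold b
    ring
  rw [h1]
  refine (Finset.norm_prod_one_add_sub_one_le _ _).trans ?_
  have h2 : ∑ p ∈ (Ico 100 n).filter Nat.Prime, ‖b s p‖ ≤ 99 / 10000 := by
    refine (Finset.sum_le_sum ?_).trans (prime_sum n)
    intro p hp
    rw [Finset.mem_filter, Finset.mem_Ico] at hp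
    apply b_bound hs
    rcases Nat.lt_or_ge p 101 with h | h
    · exfalso
      have : p = 100 := by omega
      rw [this] at hp
      exact absurd hp.2 (by norm_num)
    · exact h
  have h3 : Real.exp (∑ p ∈ (Ico 100 n).filter Nat.Prime, ‖b s p‖) ≤ Real.exp (99 / 10000) :=
    Real.exp_le_exp.2 h2
  have h4 : Real.exp (99 / 10000) ≤ 101 / 100 := by
    have h5 := Real.add_one_le_exp (-(99 / 10000) : ℝ)
    rw [Real.exp_neg] at h5
    have h6 : 0 < Real.exp (99 / 10000) := Real.exp_pos _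
    have h7 : (-(99 / 10000) + 1) * Real.exp (99 / 10000) ≤ 1 := by
      calc (-(99 / 10000) + 1) * Real.exp (99 / 10000) ≤
          (Real.exp (99 / 10000))⁻¹ * Real.exp (99 / 10000) := by gcongr
        _ = 1 := inv_mul_cancel₀ h6.ne'
    linarith
  linarith

theorem taskEP : TaskEP := by
  intro hG s hs
  have hlim := EulerProduct.eulerProduct (F_one s) (fun {m n} hmn => F_mul s hmn)
    (F_summable hG hs) (F_zero s)
  have hD : ∑' n, F s n = Dirg s := rfl
  rw [hD] at hlim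
  set P : ℂ := (1 - (2 : ℂ) ^ (-s))⁻¹ ^ 2 *
    ∏ p ∈ (Ico 3 100).filter Nat.Prime,
      (1 - 3 * ((p : ℂ) ^ (-s)) ^ 2 + 2 * ((p : ℂ) ^ (-s)) ^ 3)⁻¹ with hP
  have hP0 : P ≠ 0 := by
    rw [hP]
    apply mul_ne_zero
    · apply pow_ne_zero
      apply inv_ne_zero
      apply one_sub_ne
      have := norm_z (p := 2) (by norm_num) hs
      push_cast at this
      rw [this]
      norm_num
    · rw [Finset.prod_ne_zero_iff]
      intro p hp
      rw [Finset.mem_filter, Finset.mem_Ico] at hp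
      exact inv_ne_zero (den_ne hs hp.1.1)
  have hprod : ∀ n : ℕ, 100 ≤ n → ∏ p ∈ Nat.primesBelow n, ∑' e, F s (p ^ e) =
      P * ∏ p ∈ (Ico 100 n).filter Nat.Prime,
        (1 - 3 * ((p : ℂ) ^ (-s)) ^ 2 + 2 * ((p : ℂ) ^ (-s)) ^ 3)⁻¹ := by
    intro n hn
    have hset : Nat.primesBelow n =
        insert 2 ((Ico 3 100).filter Nat.Prime ∪ (Ico 100 n).filter Nat.Prime) := by
      ext p
      simp only [Nat.mem_primesBelow, Finset.mem_insert, Finset.mem_union, Finset.mem_filter,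
        Finset.mem_Ico]
      constructor
      · rintro ⟨h1, h2⟩
        have := h2.two_le
        by_cases h3 : p = 2
        · exact Or.inl h3
        · by_cases h4 : p < 100
          · exact Or.inr (Or.inl ⟨⟨by omega, h4⟩, h2⟩)
          · exact Or.inr (Or.inr ⟨⟨by omega, h1⟩, h2⟩)
      · rintro (rfl | ⟨h1, h2⟩ | ⟨h1, h2⟩)
        · exact ⟨by omega, Nat.prime_two⟩
        · exact ⟨by omega, h2⟩
        · exact ⟨h1.2, h2⟩
    rw [hset, Finset.prod_insert, Finset.prod_union, local_two hG hs, hP, mul_assoc]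
    · congr 2
      · refine Finset.prod_congr rfl ?_
        intro p hp
        rw [Finset.mem_filter, Finset.mem_Ico] at hp
        exact local_odd hG hs hp.2 (by omega)
      · refine Finset.prod_congr rfl ?_
        intro p hp
        rw [Finset.mem_filter, Finset.mem_Ico] at hp
        exact local_odd hG hs hp.2 (by omega)
    · rw [Finset.disjoint_left]
      intro p hp hq
      simp only [Finset.mem_filter, Finset.mem_Ico] at hp hq
      omega
    · simp only [Finset.mem_union, Finset.mem_filter, Finset.mem_Ico]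
      omega
  refine ⟨Dirg s / P, ?_, ?_⟩
  · have h1 : Tendsto (fun n : ℕ => (∏ p ∈ Nat.primesBelow n, ∑' e, F s (p ^ e)) / P - 1) atTop
        (𝓝 (Dirg s / P - 1)) := (hlim.div_const P).sub_const 1
    refine le_of_tendsto h1.norm ?_
    filter_upwards [eventually_ge_atTop 100] with n hn
    rw [hprod n hn, mul_div_cancel_left₀ _ hP0]
    exact prod_bound hs n
  · rw [mul_div_cancel₀ _ hP0]

end Pool.Agent.H559R3.W
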